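import Pool.Agent.TH871.FS.Five

set_option autoImplicit false

namespace Pool.Agent.TH871.FS

def co : Fin 6 → ZMod 5 × ZMod 5
  | 0 => (1, 0)
  | 1 => (1, 1)
  | 2 => (1, 2)
  | 3 => (1, 3)
  | 4 => (1, 4)
  | 5 => (0, 1)

def L (i : Fin 6) (v : ZMod 5 × ZMod 5) : ZMod 5 := (co i).1 * v.1 + (co i).2 * v.2

theorem L_sub (i : Fin 6) (v w : ZMod 5 × ZMod 5) : L i (v - w) = L i v - L i w := by
  unfold L; simp only [Prod.fst_sub, Prod.snd_sub]; ring

theorem dir : ∀ d : ZMod 5 × ZMod 5, d ≠ 0 →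
    (Finset.univ.filter (fun i : Fin 6 => L i d = 0)).card = 1 := by
  decide +kernel

def pairs : Finset (Fin 5 × Fin 5) := Finset.univ.filter (fun p => p.1 < p.2)

theorem pairs_card : pairs.card = 10 := by decide +kernel

theorem exists_dir (f : Fin 5 → ZMod 5 × ZMod 5) (hf : Function.Injective f) :
    ∃ i : Fin 6, (pairs.filter fun p => L i (f p.1) = L i (f p.2)).card ≤ 1 := by
  by_contra hcon
  have h0 : ∀ i : Fin 6, 2 ≤ (pairs.filter fun p => L i (f p.1) = L i (f p.2)).card := by
    intro i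
    by_contra h
    exact hcon ⟨i, by omega⟩
  have h1 : ∑ i : Fin 6, (pairs.filter (fun p => L i (f p.1) = L i (f p.2))).card = 10 := by
    simp only [Finset.card_filter]
    rw [Finset.sum_comm]
    have h2 : ∀ p ∈ pairs, ∑ i : Fin 6, (if L i (f p.1) = L i (f p.2) then 1 else 0) = 1 := by
      intro p hp
      have hlt : p.1 < p.2 := (Finset.mem_filter.1 hp).2
      have hne : f p.1 - f p.2 ≠ 0 := sub_ne_zero.2 (fun h => (ne_of_lt hlt) (hf h))
      have h3 := dir _ hne
      rw [Finset.card_filter] at h3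
      refine Eq.trans (Finset.sum_congr rfl fun i _ => ?_) h3
      simp only [L_sub, sub_eq_zero]
    rw [Finset.sum_congr rfl h2, Finset.sum_const, pairs_card]
    rfl
  have h2 : ∑ i : Fin 6, 2 ≤ ∑ i : Fin 6, (pairs.filter (fun p => L i (f p.1) = L i (f p.2))).card :=
    Finset.sum_le_sum fun i _ => h0 i
  rw [h1] at h2
  simp at h2

theorem rest : ∀ j k : Fin 5, j ≠ k → ∃ a b c : Fin 5,
    (∀ i, i = j ∨ i = k ∨ i = a ∨ i = b ∨ i = c) ∧ a ≠ b ∧ a ≠ c ∧ b ≠ c ∧ j ≠ a ∧ j ≠ b ∧ j ≠ c ∧
      k ≠ a ∧ k ≠ b ∧ k ≠ c := by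
  decide +kernel

theorem three' : ∀ α x y z : ZMod 5, (x = y ∨ x = z ∨ y = z ∨ α = x ∨ α = y ∨ α = z) ∨
    (y + z = 2 * x ∨ x + z = 2 * y ∨ x + y = 2 * z) := by
  decide +kernel

theorem three (α x y z : ZMod 5) (h1 : x ≠ y) (h2 : x ≠ z) (h3 : y ≠ z) (h4 : α ≠ x) (h5 : α ≠ y)
    (h6 : α ≠ z) : (y + z = 2 * x ∨ x + z = 2 * y ∨ x + y = 2 * z) := by
  rcases three' α x y z with h | h
  · exfalso; tauto
  · exact h

def par5 (x : ℤ × ℤ) : ZMod 5 × ZMod 5 := ((x.1 : ZMod 5), (x.2 : ZMod 5))

def psi (i : Fin 6) : ℤ × ℤ →+ ZMod 5 where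
  toFun x := L i (par5 x)
  map_zero' := by simp [L, par5]
  map_add' := by intro x y; simp [L, par5]; ring

theorem psi_apply (i : Fin 6) (x : ℤ × ℤ) : psi i x = L i (par5 x) := rfl

theorem good5_inj {s : Fin 5 → ℤ × ℤ} (ψ : ℤ × ℤ →+ ZMod 5)
    (h : Function.Injective fun j => ψ (s j)) : Good5 s := by
  have hb : Function.Bijective fun j => ψ (s j) := by
    rw [Fintype.bijective_iff_injective_and_card]
    exact ⟨h, by decide⟩
  refine ⟨fun k => if k then {t | ψ t = 0} else ∅, fun x => ?_⟩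
  obtain ⟨j, hj⟩ := hb.2 (ψ x)
  refine ⟨(true, j), ?_, ?_⟩
  · show ψ (x - s j) = 0
    rw [map_sub, ← hj]; simp
  · rintro ⟨k, j'⟩ hq
    cases k
    · simp at hq
    · have h1 : ψ (x - s j') = 0 := by simpa using hq
      rw [map_sub, sub_eq_zero] at h1
      have h2 : j = j' := h (hj.trans h1)
      rw [h2]

theorem good5_all {s : Fin 5 → ℤ × ℤ} (hres : Function.Injective fun j => par5 (s j))
    (hgen : ∀ j k f g h : Fin 5, (∀ i, i = j ∨ i = k ∨ i = f ∨ i = g ∨ i = h) →
      ∀ m n : ℤ, Odd m → m • (s j - s k) ≠ n • (s g + s h - 2 • s f)) : Good5 s := by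
  obtain ⟨i, hi⟩ := exists_dir _ hres
  by_cases hinj : Function.Injective fun j => psi i (s j)
  · exact good5_inj (psi i) hinj
  · have : ∃ j k, psi i (s j) = psi i (s k) ∧ j ≠ k := by
      unfold Function.Injective at hinj
      push Not at hinj
      exact hinj
    obtain ⟨j, k, hjk, hne⟩ := this
    rw [Finset.card_le_one] at hi
    have mem : ∀ x y : Fin 5, x < y → psi i (s x) = psi i (s y) →
        (x, y) ∈ pairs.filter fun p => L i (par5 (s p.1)) = L i (par5 (s p.2)) := by
      intro x y hxy he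
      exact Finset.mem_filter.2 ⟨Finset.mem_filter.2 ⟨Finset.mem_univ _, hxy⟩, he⟩
    have uniq : ∀ x y : Fin 5, x ≠ y → psi i (s x) = psi i (s y) →
        (x = j ∧ y = k) ∨ (x = k ∧ y = j) := by
      intro x y hxy he
      rcases lt_or_gt_of_ne hxy with h1 | h1 <;> rcases lt_or_gt_of_ne hne with h2 | h2
      · have := hi _ (mem x y h1 he) _ (mem j k h2 hjk)
        simp only [Prod.mk.injEq] at this; exact Or.inl this
      · have := hi _ (mem x y h1 he) _ (mem k j h2 hjk.symm)
        simp only [Prod.mk.injEq] at this; exact Or.inr this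
      · have := hi _ (mem y x h1 he.symm) _ (mem j k h2 hjk)
        simp only [Prod.mk.injEq] at this; exact Or.inr ⟨this.2, this.1⟩
      · have := hi _ (mem y x h1 he.symm) _ (mem k j h2 hjk.symm)
        simp only [Prod.mk.injEq] at this; exact Or.inl ⟨this.2, this.1⟩
    obtain ⟨a, b, c, hcov, ab, ac, bc, ja, jb, jc, ka, kb, kc⟩ := rest j k hne
    have nab : psi i (s a) ≠ psi i (s b) := fun he => by
      rcases uniq a b ab he with h | h
      · exact ja h.1.symm
      · exact ka h.1.symm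
    have nac : psi i (s a) ≠ psi i (s c) := fun he => by
      rcases uniq a c ac he with h | h
      · exact ja h.1.symm
      · exact ka h.1.symm
    have nbc : psi i (s b) ≠ psi i (s c) := fun he => by
      rcases uniq b c bc he with h | h
      · exact jb h.1.symm
      · exact kb h.1.symm
    have nja : psi i (s j) ≠ psi i (s a) := fun he => by
      rcases uniq j a ja he with h | h
      · exact ka h.2.symm
      · exact ja h.2.symm
    have njb : psi i (s j) ≠ psi i (s b) := fun he => by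
      rcases uniq j b jb he with h | h
      · exact kb h.2.symm
      · exact jb h.2.symm
    have njc : psi i (s j) ≠ psi i (s c) := fun he => by
      rcases uniq j c jc he with h | h
      · exact kc h.2.symm
      · exact jc h.2.symm
    rcases three _ _ _ _ nab nac nbc nja njb njc with h | h | h
    · exact core (psi i) j k a b c hcov hjk h nja njb njc nab.symm
        (hgen j k a b c hcov)
    · have hcov' : ∀ t, t = j ∨ t = k ∨ t = b ∨ t = a ∨ t = c := fun t => by
        rcases hcov t with h | h | h | h | h <;> tauto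
      exact core (psi i) j k b a c hcov' hjk h njb nja njc nab (hgen j k b a c hcov')
    · have hcov' : ∀ t, t = j ∨ t = k ∨ t = c ∨ t = a ∨ t = b := fun t => by
        rcases hcov t with h | h | h | h | h <;> tauto
      exact core (psi i) j k c a b hcov' hjk h njc nja njb nac (hgen j k c a b hcov')

end Pool.Agent.TH871.FS
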