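import Pool.Agent.TH871.FS.Main

set_option autoImplicit false

namespace Pool.Agent.TH871.FS

theorem good_mono {K L : Type} {u : K → (ℤ × ℤ →+ ℤ × ℤ)} {u' : L → (ℤ × ℤ →+ ℤ × ℤ)}
    (e : K → L) (hu : ∀ k, u' (e k) = u k) {s : Fin 4 → ℤ × ℤ}
    (h : Good u s) : Good u' s := by
  obtain ⟨T, hT⟩ := h
  refine ⟨fun l => {t | ∃ k, e k = l ∧ t ∈ T k}, fun x => ?_⟩
  obtain ⟨⟨k0, j0⟩, hp, hq⟩ := hT x
  refine ⟨(e k0, j0), ⟨k0, rfl, ?_⟩, ?_⟩
  · show x - u' (e k0) (s j0) ∈ T k0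
    rw [hu]; exact hp
  · rintro ⟨l, j⟩ ⟨k, hk, hm⟩
    have hk' : e k = l := hk
    subst hk'
    have hm' : x - u' (e k) (s j) ∈ T k := hm
    rw [hu] at hm'
    have := hq (k, j) hm'
    simp only [Prod.mk.injEq] at this
    rw [this.1, this.2]

theorem good4_of_uB {s : Fin 4 → ℤ × ℤ} (h : Good uB s) : Good u4 s := by
  refine good_mono (fun b => if b then 0 else 2) ?_ h
  intro k
  cases k
  · rfl
  · rfl

theorem line_two_two {m : Fin 4 → ℤ} {p q β : ℤ} (h1 : m 1 = m 0 + 2 * p)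
    (h2 : m 2 = m 0 + (2 * β + 1)) (h3 : m 3 = m 2 + 2 * q) (hE : E p q) :
    Good u4 (fun j => (m j, (0 : ℤ))) := by
  refine red u4 (AddMonoidHom.id _) Function.injective_id (fun k x => rfl)
    (s' := fun j => (m j - m 0, (0 : ℤ))) (m 0, 0) (fun j => by simp) ?_
  refine good_two_two (p := p) (q := q) (β := β) ?_ ?_ ?_ ?_ hE
  · simp
  · simp [h1]
  · simp [h2]
  · simp [h3, h2]; ring

/-- doubling -/
def dbl : ℤ × ℤ →+ ℤ × ℤ where
  toFun y := (2 * y.1, 2 * y.2)
  map_zero' := by simp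
  map_add' := by intro x y; ext <;> simp <;> ring

theorem dbl_apply (y : ℤ × ℤ) : dbl y = (2 * y.1, 2 * y.2) := rfl

theorem dbl_inj : Function.Injective dbl := by
  intro x y h
  have h3 := congrArg Prod.fst h
  have h4 := congrArg Prod.snd h
  have h1 : 2 * x.1 = 2 * y.1 := h3
  have h2 : 2 * x.2 = 2 * y.2 := h4
  ext
  · omega
  · omega

theorem dbl_comm (k : Fin 4) (x : ℤ × ℤ) : u4 k (dbl x) = dbl (u4 k x) := by
  fin_cases k
  · rfl
  · show ((-(2 * x.2), 2 * x.1) : ℤ × ℤ) = (2 * (-x.2), 2 * x.1)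
    ext <;> simp
  · show (-(2 * x.1, 2 * x.2) : ℤ × ℤ) = (2 * (-x.1), 2 * (-x.2))
    ext <;> simp
  · show (-(-(2 * x.2), 2 * x.1) : ℤ × ℤ) = (2 * (-(-x.2)), 2 * (-x.1))
    ext <;> simp

def Pat22 (a b c d : ZMod 2) : Prop := a = b ∧ c = d ∧ a ≠ c

theorem combi1 : ∀ a b c d : ZMod 2, (b = a ∧ c = a ∧ d = a) ∨
    ((b ≠ a ∧ c ≠ a ∧ d ≠ a) ∨ (a ≠ b ∧ c ≠ b ∧ d ≠ b) ∨ (a ≠ c ∧ b ≠ c ∧ d ≠ c) ∨
      (a ≠ d ∧ b ≠ d ∧ c ≠ d)) ∨
    ((a = b ∧ c = d ∧ a ≠ c) ∨ (a = c ∧ b = d ∧ a ≠ b) ∨ (a = d ∧ c = b ∧ a ≠ c)) := by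
  decide +kernel

theorem z2ne {a b : ℤ} (h : (a : ZMod 2) ≠ (b : ZMod 2)) : (b - a) % 2 = 1 := by
  have h1 : ¬ ((b - a : ℤ) : ZMod 2) = 0 := by
    intro h2
    apply h
    rw [Int.cast_sub, sub_eq_zero] at h2
    exact h2.symm
  rw [z2] at h1
  omega

theorem z2eq {a b : ℤ} (h : (a : ZMod 2) = (b : ZMod 2)) : (b - a) % 2 = 0 := by
  rw [← z2, Int.cast_sub, h, sub_self]

theorem line_pat {m : Fin 4 → ℤ} (hm : Function.Injective m)
    (h : (m 0 : ZMod 2) = (m 1 : ZMod 2) ∧ (m 2 : ZMod 2) = (m 3 : ZMod 2) ∧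
      (m 0 : ZMod 2) ≠ (m 2 : ZMod 2)) : Good u4 (fun j => (m j, (0 : ℤ))) := by
  obtain ⟨h1, h2, h3⟩ := h
  have h1' := z2eq h1
  have h2' := z2eq h2
  have h3' := z2ne h3
  have n1 : m 1 - m 0 ≠ 0 := fun h => by
    have := hm (sub_eq_zero.1 h); exact absurd this (by decide)
  have n2 : m 3 - m 2 ≠ 0 := fun h => by
    have := hm (sub_eq_zero.1 h); exact absurd this (by decide)
  rcases E_all _ ((m 1 - m 0) / 2) ((m 3 - m 2) / 2) le_rfl (by omega) (by omega) with hE | hE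
  · exact line_two_two (β := (m 2 - m 0 - 1) / 2) (by omega) (by omega) (by omega) hE
  · refine good_perm ((Equiv.swap 0 2).trans (Equiv.swap 1 3)) ?_
    have e0 : ((Equiv.swap (0 : Fin 4) 2).trans (Equiv.swap 1 3)) 0 = 2 := by decide
    have e1 : ((Equiv.swap (0 : Fin 4) 2).trans (Equiv.swap 1 3)) 1 = 3 := by decide
    have e2 : ((Equiv.swap (0 : Fin 4) 2).trans (Equiv.swap 1 3)) 2 = 0 := by decide
    have e3 : ((Equiv.swap (0 : Fin 4) 2).trans (Equiv.swap 1 3)) 3 = 1 := by decide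
    refine line_two_two (m := fun j => m (((Equiv.swap (0 : Fin 4) 2).trans (Equiv.swap 1 3)) j))
      (β := (m 0 - m 2 - 1) / 2) ?_ ?_ ?_ hE
    · simp only [e0, e1]; omega
    · simp only [e0, e2]; omega
    · simp only [e2, e3]; omega

theorem good_line (n : ℕ) : ∀ m : Fin 4 → ℤ, Function.Injective m → (m 1 - m 0).natAbs = n →
    Good u4 (fun j => (m j, (0 : ℤ))) := by
  induction n using Nat.strong_induction_on with
  | _ n ih =>
    intro m hm hn
    have n1 : m 1 - m 0 ≠ 0 := fun h => by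
      have := hm (sub_eq_zero.1 h); exact absurd this (by decide)
    have hs : Function.Injective fun j => (m j, (0 : ℤ)) := fun a b hab =>
      hm (congrArg Prod.fst hab)
    rcases combi1 (m 0 : ZMod 2) (m 1 : ZMod 2) (m 2 : ZMod 2) (m 3 : ZMod 2) with
      h | (h | h | h | h) | (h | h | h)
    · have hc : ∀ j, ∃ y, m j - m 0 = 2 * y := by
        intro j
        have : (m j - m 0) % 2 = 0 := by
          apply z2eq
          fin_cases j
          · rfl
          · exact h.1.symm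
          · exact h.2.1.symm
          · exact h.2.2.symm
        exact ⟨(m j - m 0) / 2, by omega⟩
      choose m' hm' using hc
      refine red u4 dbl dbl_inj dbl_comm (s' := fun j => (m' j, (0 : ℤ))) (m 0, 0) (fun j => ?_) ?_
      · rw [dbl_apply]
        ext
        · simp only [Prod.fst_add]; have := hm' j; omega
        · simp
      · refine ih (m' 1 - m' 0).natAbs ?_ m' ?_ rfl
        · have := hm' 1
          have := hm' 0
          omega
        · intro a b hab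
          apply hm
          have h1 := hm' a
          have h2 := hm' b
          rw [hab] at h1
          omega
    · refine good4_of_uB (good_31 0 hs 0 fun j hj => ?_)
      fin_cases j
      · exact absurd rfl hj
      · exact h.1
      · exact h.2.1
      · exact h.2.2
    · refine good4_of_uB (good_31 0 hs 1 fun j hj => ?_)
      fin_cases j
      · exact h.1
      · exact absurd rfl hj
      · exact h.2.1
      · exact h.2.2
    · refine good4_of_uB (good_31 0 hs 2 fun j hj => ?_)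
      fin_cases j
      · exact h.1
      · exact h.2.1
      · exact absurd rfl hj
      · exact h.2.2
    · refine good4_of_uB (good_31 0 hs 3 fun j hj => ?_)
      fin_cases j
      · exact h.1
      · exact h.2.1
      · exact h.2.2
      · exact absurd rfl hj
    · exact line_pat hm h
    · refine good_perm (Equiv.swap 1 2) ?_
      have e0 : (Equiv.swap (1 : Fin 4) 2) 0 = 0 := by decide
      have e1 : (Equiv.swap (1 : Fin 4) 2) 1 = 2 := by decide
      have e2 : (Equiv.swap (1 : Fin 4) 2) 2 = 1 := by decide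
      have e3 : (Equiv.swap (1 : Fin 4) 2) 3 = 3 := by decide
      refine line_pat (m := fun j => m (Equiv.swap (1 : Fin 4) 2 j)) (hm.comp (Equiv.injective _)) ?_
      simp only [e0, e1, e2, e3]
      exact h
    · refine good_perm (Equiv.swap 1 3) ?_
      have e0 : (Equiv.swap (1 : Fin 4) 3) 0 = 0 := by decide
      have e1 : (Equiv.swap (1 : Fin 4) 3) 1 = 3 := by decide
      have e2 : (Equiv.swap (1 : Fin 4) 3) 2 = 2 := by decide
      have e3 : (Equiv.swap (1 : Fin 4) 3) 3 = 1 := by decide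
      refine line_pat (m := fun j => m (Equiv.swap (1 : Fin 4) 3 j)) (hm.comp (Equiv.injective _)) ?_
      simp only [e0, e1, e2, e3]
      exact h

/-- multiplication by a Gaussian integer -/
def gm (w : ℤ × ℤ) : ℤ × ℤ →+ ℤ × ℤ where
  toFun y := (w.1 * y.1 - w.2 * y.2, w.2 * y.1 + w.1 * y.2)
  map_zero' := by simp
  map_add' := by intro x y; ext <;> simp <;> ring

theorem gm_apply (w y : ℤ × ℤ) : gm w y = (w.1 * y.1 - w.2 * y.2, w.2 * y.1 + w.1 * y.2) := rfl

theorem gm_inj {w : ℤ × ℤ} (hw : w ≠ 0) : Function.Injective (gm w) := by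
  rw [injective_iff_map_eq_zero]
  intro y h
  have h3 := congrArg Prod.fst h
  have h4 := congrArg Prod.snd h
  have h1 : w.1 * y.1 - w.2 * y.2 = 0 := h3
  have h2 : w.2 * y.1 + w.1 * y.2 = 0 := h4
  have hn : w.1 ^ 2 + w.2 ^ 2 ≠ 0 := by
    intro h0
    apply hw
    ext
    · show w.1 = 0
      nlinarith [sq_nonneg w.1, sq_nonneg w.2]
    · show w.2 = 0
      nlinarith [sq_nonneg w.1, sq_nonneg w.2]
  ext
  · have : (w.1 ^ 2 + w.2 ^ 2) * y.1 = 0 := by linear_combination w.1 * h1 + w.2 * h2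
    exact (mul_eq_zero.1 this).resolve_left hn
  · have : (w.1 ^ 2 + w.2 ^ 2) * y.2 = 0 := by linear_combination w.1 * h2 - w.2 * h1
    exact (mul_eq_zero.1 this).resolve_left hn

theorem gm_comm (w : ℤ × ℤ) (k : Fin 4) (x : ℤ × ℤ) : u4 k (gm w x) = gm w (u4 k x) := by
  fin_cases k
  · rfl
  · show ((-(w.2 * x.1 + w.1 * x.2), w.1 * x.1 - w.2 * x.2) : ℤ × ℤ) =
      (w.1 * (-x.2) - w.2 * x.1, w.2 * (-x.2) + w.1 * x.1)
    ext <;> simp <;> ring
  · show (-(w.1 * x.1 - w.2 * x.2, w.2 * x.1 + w.1 * x.2) : ℤ × ℤ) =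
      (w.1 * (-x.1) - w.2 * (-x.2), w.2 * (-x.1) + w.1 * (-x.2))
    ext <;> simp <;> ring
  · show (-(-(w.2 * x.1 + w.1 * x.2), w.1 * x.1 - w.2 * x.2) : ℤ × ℤ) =
      (w.1 * (-(-x.2)) - w.2 * (-x.1), w.2 * (-(-x.2)) + w.1 * (-x.1))
    ext <;> simp <;> ring

theorem good_rank1 {s : Fin 4 → ℤ × ℤ} (hs : Function.Injective s)
    (hd : ∀ j, det (s 1 - s 0) (s j - s 0) = 0) : Good u4 s := by
  have hv : s 1 - s 0 ≠ 0 := fun h => by
    have := hs (sub_eq_zero.1 h); exact absurd this (by decide)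
  have hg : 0 < Int.gcd (s 1 - s 0).1 (s 1 - s 0).2 := by
    rw [Nat.pos_iff_ne_zero]
    intro h
    rw [Int.gcd_eq_zero_iff] at h
    exact hv (Prod.ext h.1 h.2)
  obtain ⟨g, w1, w2, hgp, hc, e1, e2⟩ := Int.exists_gcd_one' hg
  rw [← Int.isCoprime_iff_gcd_eq_one] at hc
  obtain ⟨x, y, hxy⟩ := hc
  have hg0 : (g : ℤ) ≠ 0 := by exact_mod_cast hgp.ne'
  have hm : ∀ j, ∃ m : ℤ, s j - s 0 = gm (w1, w2) (m, 0) := by
    intro j
    have h := hd j
    unfold det at h
    rw [e1, e2] at h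
    have h' : w1 * (s j - s 0).2 - w2 * (s j - s 0).1 = 0 := by
      have : (g : ℤ) * (w1 * (s j - s 0).2 - w2 * (s j - s 0).1) = 0 := by
        linear_combination h
      exact (mul_eq_zero.1 this).resolve_left hg0
    refine ⟨x * (s j - s 0).1 + y * (s j - s 0).2, ?_⟩
    rw [gm_apply]
    ext
    · show (s j - s 0).1 = w1 * (x * (s j - s 0).1 + y * (s j - s 0).2) - w2 * 0
      linear_combination (-(s j - s 0).1) * hxy - y * h'
    · show (s j - s 0).2 = w2 * (x * (s j - s 0).1 + y * (s j - s 0).2) + w1 * 0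
      linear_combination (-(s j - s 0).2) * hxy + x * h'
  choose m hm' using hm
  have hw : ((w1, w2) : ℤ × ℤ) ≠ 0 := by
    intro h0
    apply hv
    rw [hm' 1, h0, gm_apply]; simp
  refine red u4 (gm (w1, w2)) (gm_inj hw) (gm_comm _) (s' := fun j => (m j, (0 : ℤ))) (s 0)
    (fun j => by rw [← hm']; abel) ?_
  refine good_line _ m ?_ rfl
  intro a b hab
  apply hs
  have h1 := hm' a
  have h2 := hm' b
  rw [hab, ← h2] at h1
  exact sub_left_injective h1

theorem good_all {s : Fin 4 → ℤ × ℤ} (hs : Function.Injective s) : Good u4 s := by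
  by_cases h : ∀ j, det (s 1 - s 0) (s j - s 0) = 0
  · exact good_rank1 hs h
  · rw [not_forall] at h
    obtain ⟨j, hj⟩ := h
    exact good4_of_uB (good_rank2 _ s hs ⟨1, j, 0, hj, rfl⟩)

end Pool.Agent.TH871.FS
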