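import Mathlib

set_option autoImplicit false

namespace Pool.Agent.TH871.FS

/-- exactly one of four statements holds -/
def One (a b c d : Prop) : Prop :=
  (a ∧ ¬ b ∧ ¬ c ∧ ¬ d) ∨ (¬ a ∧ b ∧ ¬ c ∧ ¬ d) ∨ (¬ a ∧ ¬ b ∧ c ∧ ¬ d) ∨ (¬ a ∧ ¬ b ∧ ¬ c ∧ d)

def Good {K : Type} (u : K → (ℤ × ℤ →+ ℤ × ℤ)) (s : Fin 4 → ℤ × ℤ) : Prop :=
  ∃ T : K → Set (ℤ × ℤ), ∀ x, ∃! p : K × Fin 4, x - u p.1 (s p.2) ∈ T p.1

theorem exists_rep (φ : ℤ × ℤ →+ ℤ × ℤ) : ∃ r : ℤ × ℤ → ℤ × ℤ,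
    (∀ x, ∃ x', x = r x + φ x') ∧ ∀ x y, (∃ w, x = y + φ w) → r x = r y := by
  refine ⟨fun x => Quotient.out (QuotientAddGroup.mk x : (ℤ × ℤ) ⧸ φ.range), ?_, ?_⟩
  · intro x
    have h : (QuotientAddGroup.mk (Quotient.out (QuotientAddGroup.mk x : (ℤ × ℤ) ⧸ φ.range)) :
        (ℤ × ℤ) ⧸ φ.range) = QuotientAddGroup.mk x := QuotientAddGroup.out_eq' _
    rw [QuotientAddGroup.eq] at h
    obtain ⟨x', hx'⟩ := h
    refine ⟨x', ?_⟩
    rw [hx']; abel
  · rintro x y ⟨w, rfl⟩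
    have : (QuotientAddGroup.mk (y + φ w) : (ℤ × ℤ) ⧸ φ.range) = QuotientAddGroup.mk y := by
      rw [QuotientAddGroup.eq]
      refine ⟨-w, ?_⟩
      rw [map_neg]; abel
    simp only [this]

theorem red {K : Type} (u : K → (ℤ × ℤ →+ ℤ × ℤ)) (φ : ℤ × ℤ →+ ℤ × ℤ)
    (hφ : Function.Injective φ) (hc : ∀ k x, u k (φ x) = φ (u k x)) {s s' : Fin 4 → ℤ × ℤ}
    (c : ℤ × ℤ) (hs : ∀ j, s j = φ (s' j) + c) (h : Good u s') : Good u s := by
  obtain ⟨T, hT⟩ := h
  obtain ⟨r, hr1, hr2⟩ := exists_rep φ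
  refine ⟨fun k => {t | ∃ y ∈ T k, ∃ z, t + u k c = r z + φ y}, fun x => ?_⟩
  obtain ⟨x', hx'⟩ := hr1 x
  have key : ∀ p : K × Fin 4, (x - u p.1 (s p.2) ∈ {t | ∃ y ∈ T p.1, ∃ z, t + u p.1 c = r z + φ y}) ↔
      x' - u p.1 (s' p.2) ∈ T p.1 := by
    intro p
    have e : x - u p.1 (s p.2) + u p.1 c = r x + φ (x' - u p.1 (s' p.2)) := by
      rw [hs, map_add, hc, map_sub]
      conv_lhs => rw [hx']
      abel
    constructor
    · rintro ⟨y, hy, z, hz⟩
      rw [e] at hz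
      have h1 : r x = r z := by
        obtain ⟨z', hz'⟩ := hr1 z
        apply hr2
        refine ⟨x' - z' - ((x' - u p.1 (s' p.2)) - y), ?_⟩
        rw [map_sub, map_sub, map_sub φ (x' - u p.1 (s' p.2)) y]
        have h2 : r x = r z + φ y - φ (x' - u p.1 (s' p.2)) := by rw [← hz]; abel
        conv_lhs => rw [hx', h2]
        conv_rhs => rw [hz']
        abel
      rw [h1] at hz
      have h2 := hφ (add_left_cancel hz)
      rw [h2]; exact hy
    · intro h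
      exact ⟨_, h, x, e⟩
  obtain ⟨p, hp, hu⟩ := hT x'
  refine ⟨p, (key p).2 hp, fun q hq => hu q ((key q).1 hq)⟩

theorem good_perm {K : Type} {u : K → (ℤ × ℤ →+ ℤ × ℤ)} {s : Fin 4 → ℤ × ℤ}
    (σ : Equiv.Perm (Fin 4)) (h : Good u (s ∘ σ)) : Good u s := by
  obtain ⟨T, hT⟩ := h
  refine ⟨T, fun x => ?_⟩
  obtain ⟨⟨k, j⟩, hp, hu⟩ := hT x
  refine ⟨(k, σ j), hp, ?_⟩
  rintro ⟨k', j'⟩ hq
  have := hu (k', σ.symm j') (by simpa using hq)
  simp only [Prod.mk.injEq] at this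
  obtain ⟨h1, h2⟩ := this
  rw [h1, ← h2]; simp

/-- the three-point lemma -/
def P (a b : ℤ × ℤ) : Prop :=
  ∃ (T : Set (ℤ × ℤ)) (d : ℤ × ℤ), ∀ x, One (x ∈ T) (x - a ∈ T) (x - b ∈ T) (d - x ∈ T)

theorem P.swap {a b : ℤ × ℤ} (h : P a b) : P b a := by
  obtain ⟨T, d, h⟩ := h
  refine ⟨T, d, fun x => ?_⟩
  have := h x
  unfold One at *
  tauto

theorem P.rebase {a b : ℤ × ℤ} (h : P (-a) (b - a)) : P a b := by
  obtain ⟨T, d, h⟩ := h
  refine ⟨{y | y + a ∈ T}, d - a, fun x => ?_⟩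
  have h1 := h x
  have e1 : x - -a = x + a := by abel
  have e2 : x - (b - a) = x - b + a := by abel
  have e3 : d - x = d - a - x + a := by abel
  rw [e1, e2, e3] at h1
  simp only [Set.mem_ofPred_eq, sub_add_cancel]
  unfold One at *
  tauto

theorem P.double {a b : ℤ × ℤ} (h : P a b) : P (2 * a.1, 2 * a.2) (2 * b.1, 2 * b.2) := by
  obtain ⟨T, d, h⟩ := h
  refine ⟨{y | (y.1 / 2, y.2 / 2) ∈ T}, (2 * d.1 + 1, 2 * d.2 + 1), fun x => ?_⟩
  have h1 := h (x.1 / 2, x.2 / 2)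
  have e1 : ((x.1 / 2, x.2 / 2) : ℤ × ℤ) - a = ((x - (2 * a.1, 2 * a.2)).1 / 2,
      (x - (2 * a.1, 2 * a.2)).2 / 2) := by
    ext
    · simp only [Prod.fst_sub]; omega
    · simp only [Prod.snd_sub]; omega
  have e2 : ((x.1 / 2, x.2 / 2) : ℤ × ℤ) - b = ((x - (2 * b.1, 2 * b.2)).1 / 2,
      (x - (2 * b.1, 2 * b.2)).2 / 2) := by
    ext
    · simp only [Prod.fst_sub]; omega
    · simp only [Prod.snd_sub]; omega
  have e3 : d - ((x.1 / 2, x.2 / 2) : ℤ × ℤ) = ((((2 * d.1 + 1, 2 * d.2 + 1) : ℤ × ℤ) - x).1 / 2,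
      (((2 * d.1 + 1, 2 * d.2 + 1) : ℤ × ℤ) - x).2 / 2) := by
    ext
    · simp only [Prod.fst_sub]; omega
    · simp only [Prod.snd_sub]; omega
  rw [e1, e2, e3] at h1
  exact h1

theorem div_flip {B z : ℤ} (hB : 0 < B) : (-1 - z) / B = -1 - z / B := by
  have h := (Int.ediv_emod_unique (a := -1 - z) (b := B) (q := -1 - z / B)
    (r := B - 1 - z % B) hB).2 ⟨by
      have := Int.emod_add_mul_ediv z B
      linear_combination -this, by have := Int.emod_lt_of_pos z hB; omega,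
      by have := Int.emod_nonneg z hB.ne'; omega⟩
  exact h.1

theorem pb (χ ψ : ℤ × ℤ →+ ℤ) {a b e : ℤ × ℤ} (ha : Odd (χ a)) (hb : Even (χ b))
    (hψ : ψ b ≠ 0) (he : Even (χ e)) (heψ : ψ e = -1) : P a b := by
  obtain ⟨B, hB, hB0⟩ : ∃ B : ℤ, (ψ b = B ∨ ψ b = -B) ∧ 0 < B := by
    rcases lt_or_gt_of_ne hψ with h | h
    · exact ⟨-ψ b, Or.inr (by ring), by omega⟩
    · exact ⟨ψ b, Or.inl rfl, h⟩
  refine ⟨{x | Even (χ x) ∧ Even (ψ x / B)}, a + e, fun x => ?_⟩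
  have h1 : (ψ x - ψ b) / B = ψ x / B - 1 ∨ (ψ x - ψ b) / B = ψ x / B + 1 := by
    rcases hB with h | h
    · left
      rw [h]
      have := Int.add_mul_ediv_right (ψ x) (-1) hB0.ne'
      rw [← sub_eq_add_neg] at this
      rw [← this]; congr 1; ring
    · right
      rw [h]
      have := Int.add_mul_ediv_right (ψ x) 1 hB0.ne'
      rw [← this]; congr 1; ring
  have h2 : (ψ a + ψ e - ψ x) / B = -1 - (ψ x - ψ a) / B := by
    rw [← div_flip hB0, heψ]; congr 1; ring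
  simp only [Set.mem_ofPred_eq, map_sub, map_add, h2]
  generalize hg : ψ x / B = g at *
  generalize (ψ x - ψ a) / B = g2 at *
  generalize (ψ x - ψ b) / B = g1 at *
  unfold One
  rw [Int.odd_iff] at ha
  simp only [Int.even_iff] at *
  generalize χ x = X at *
  generalize χ a = A at *
  generalize χ b = C at *
  generalize χ e = E at *
  clear hψ heψ h2
  omega

def fstH : ℤ × ℤ →+ ℤ := AddMonoidHom.fst ℤ ℤ
def sndH : ℤ × ℤ →+ ℤ := AddMonoidHom.snd ℤ ℤ

theorem pb_fst {a b : ℤ × ℤ} (ha : Odd a.1) (hb : Even b.1) (hb0 : b ≠ 0) : P a b := by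
  by_cases h : b.2 = 0
  · refine pb (AddMonoidHom.fst ℤ ℤ) (AddMonoidHom.fst ℤ ℤ + AddMonoidHom.snd ℤ ℤ) (e := (0, -1))
      ha hb ?_ (by simp) (by simp)
    intro h2
    apply hb0
    simp [h] at h2
    ext
    · simpa using h2
    · simpa using h
  · exact pb (AddMonoidHom.fst ℤ ℤ) (AddMonoidHom.snd ℤ ℤ) (e := (0, -1)) ha hb h (by simp)
      (by simp)

theorem pb_snd {a b : ℤ × ℤ} (ha : Odd a.2) (hb : Even b.2) (hb0 : b ≠ 0) : P a b := by
  by_cases h : b.1 = 0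
  · refine pb (AddMonoidHom.snd ℤ ℤ) (AddMonoidHom.fst ℤ ℤ + AddMonoidHom.snd ℤ ℤ) (e := (-1, 0))
      ha hb ?_ (by simp) (by simp)
    intro h2
    apply hb0
    simp [h] at h2
    ext
    · simpa using h
    · simpa using h2
  · exact pb (AddMonoidHom.snd ℤ ℤ) (AddMonoidHom.fst ℤ ℤ) (e := (-1, 0)) ha hb h (by simp)
      (by simp)

theorem P_all (n : ℕ) : ∀ a b : ℤ × ℤ, a.1.natAbs + a.2.natAbs ≤ n → a ≠ 0 → b ≠ 0 → a ≠ b →
    P a b := by
  induction n using Nat.strong_induction_on with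
  | _ n ih =>
    intro a b hn ha hb hab
    by_cases h1 : Even a.1 ∧ Even b.1
    · by_cases h2 : Even a.2 ∧ Even b.2
      · obtain ⟨⟨a1, ha1⟩, ⟨b1, hb1⟩⟩ := h1
        obtain ⟨⟨a2, ha2⟩, ⟨b2, hb2⟩⟩ := h2
        have ea : a = (2 * a1, 2 * a2) := by
          ext
          · simp only; omega
          · simp only; omega
        have eb : b = (2 * b1, 2 * b2) := by
          ext
          · simp only; omega
          · simp only; omega
        have hne : a1.natAbs + a2.natAbs < n := by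
          have : a1 ≠ 0 ∨ a2 ≠ 0 := by
            by_contra hcon
            push Not at hcon
            apply ha
            rw [ea, hcon.1, hcon.2]; rfl
          omega
        have := ih _ hne (a1, a2) (b1, b2) le_rfl (by
          intro h; apply ha; rw [Prod.mk_eq_zero] at h; rw [ea, h.1, h.2]; rfl) (by
          intro h; apply hb; rw [Prod.mk_eq_zero] at h; rw [eb, h.1, h.2]; rfl) (by
          intro h; apply hab; rw [Prod.mk.injEq] at h; rw [ea, eb, h.1, h.2])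
        rw [ea, eb]
        exact this.double
      · rcases Int.even_or_odd a.2 with ha2 | ha2
        · rcases Int.even_or_odd b.2 with hb2 | hb2
          · exact absurd ⟨ha2, hb2⟩ h2
          · exact (pb_snd hb2 ha2 ha).swap
        · rcases Int.even_or_odd b.2 with hb2 | hb2
          · exact pb_snd ha2 hb2 hb
          · apply P.rebase
            refine pb_snd ?_ ?_ ?_
            · simpa using ha2.neg
            · simpa using hb2.sub_odd ha2
            · intro h; exact hab (sub_eq_zero.1 h).symm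
    · rcases Int.even_or_odd a.1 with ha2 | ha2
      · rcases Int.even_or_odd b.1 with hb2 | hb2
        · exact absurd ⟨ha2, hb2⟩ h1
        · exact (pb_fst hb2 ha2 ha).swap
      · rcases Int.even_or_odd b.1 with hb2 | hb2
        · exact pb_fst ha2 hb2 hb
        · apply P.rebase
          refine pb_fst ?_ ?_ ?_
          · simpa using ha2.neg
          · simpa using hb2.sub_odd ha2
          · intro h; exact hab (sub_eq_zero.1 h).symm

end Pool.Agent.TH871.FS
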