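import Pool.Agent.TH871.FS.Pat

set_option autoImplicit false

namespace Pool.Agent.TH871.FS

def Good5 (s : Fin 5 → ℤ × ℤ) : Prop :=
  ∃ T : Bool → Set (ℤ × ℤ), ∀ x, ∃! p : Bool × Fin 5, x - uB p.1 (s p.2) ∈ T p.1

theorem exT (δ π : ℤ × ℤ) (h : ∀ m n : ℤ, Odd m → m • δ ≠ n • π) :
    ∃ T : Set (ℤ × ℤ), ∀ x, (x + δ ∈ T ↔ x ∉ T) ∧ (x + π ∈ T ↔ x ∈ T) := by
  let φ : ℤ × ℤ →+ ℤ × ℤ :=
    { toFun := fun w => w.1 • δ + w.2 • π
      map_zero' := by simp
      map_add' := by intro x y; simp only [Prod.fst_add, Prod.snd_add, add_smul]; abel }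
  have hφ : ∀ w, φ w = w.1 • δ + w.2 • π := fun _ => rfl
  obtain ⟨r, hr1, hr2⟩ := exists_rep φ
  have key : ∀ x w, x = r x + φ w → ((∃ w : ℤ × ℤ, Even w.1 ∧ x = r x + φ w) ↔ Even w.1) := by
    intro x w hw
    constructor
    · rintro ⟨w', he, hw'⟩
      rcases Int.even_or_odd (w.1 - w'.1) with ho | ho
      · have := ho.add he; simpa using this
      · exfalso
        have h1 : φ w = φ w' := by
          have : r x + φ w = r x + φ w' := by rw [← hw, ← hw']
          exact add_left_cancel this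
        apply h (w.1 - w'.1) (w'.2 - w.2) ho
        rw [hφ, hφ] at h1
        rw [sub_smul, sub_smul, sub_eq_sub_iff_add_eq_add]
        rw [h1]; abel
    · intro he
      exact ⟨w, he, hw⟩
  refine ⟨{x | ∃ w : ℤ × ℤ, Even w.1 ∧ x = r x + φ w}, fun x => ?_⟩
  obtain ⟨w, hw⟩ := hr1 x
  have k0 := key x w hw
  constructor
  · have e1 : r (x + δ) = r x := hr2 _ _ ⟨(1, 0), by rw [hφ]; simp⟩
    have k1 := key (x + δ) (w + (1, 0)) (by rw [e1, map_add]; conv_lhs => rw [hw]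
                                            rw [hφ (1, 0)]; simp; abel)
    show (∃ w : ℤ × ℤ, Even w.1 ∧ x + δ = r (x + δ) + φ w) ↔ ¬ ∃ w : ℤ × ℤ, Even w.1 ∧ x = r x + φ w
    rw [k0, k1]
    show Even (w.1 + 1) ↔ ¬ Even w.1
    exact Int.even_add_one
  · have e1 : r (x + π) = r x := hr2 _ _ ⟨(0, 1), by rw [hφ]; simp⟩
    have k1 := key (x + π) (w + (0, 1)) (by rw [e1, map_add]; conv_lhs => rw [hw]
                                            rw [hφ (0, 1)]; simp; abel)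
    show (∃ w : ℤ × ℤ, Even w.1 ∧ x + π = r (x + π) + φ w) ↔ ∃ w : ℤ × ℤ, Even w.1 ∧ x = r x + φ w
    rw [k0, k1]
    show Even (w.1 + 0) ↔ Even w.1
    rw [add_zero]

theorem uniq2 {α : Type} {mem : α → Prop} (p1 p2 : α) (h1 : mem p1 ↔ ¬ mem p2)
    (h2 : ∀ p, mem p → p = p1 ∨ p = p2) : ∃! p, mem p := by
  by_cases h : mem p1
  · refine ⟨p1, h, fun q hq => ?_⟩
    rcases h2 q hq with h3 | h3
    · exact h3
    · subst h3; exact absurd hq (h1.1 h)
  · have h3 : mem p2 := by by_contra h4; exact h (h1.2 h4)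
    refine ⟨p2, h3, fun q hq => ?_⟩
    rcases h2 q hq with h4 | h4
    · subst h4; exact absurd hq h
    · exact h4

theorem cls : ∀ A B z : ZMod 5, A ≠ 0 → B ≠ 0 → A ≠ B → A ≠ -B →
    (z = A ∧ z ≠ -A ∧ z ≠ 0 ∧ z ≠ B ∧ z ≠ -B) ∨ (z = -A ∧ z ≠ A ∧ z ≠ 0 ∧ z ≠ B ∧ z ≠ -B) ∨
    (z = 0 ∧ z ≠ A ∧ z ≠ -A ∧ z ≠ B ∧ z ≠ -B) ∨ (z = B ∧ z ≠ A ∧ z ≠ -A ∧ z ≠ 0 ∧ z ≠ -B) ∨
    (z = -B ∧ z ≠ A ∧ z ≠ -A ∧ z ≠ 0 ∧ z ≠ B) := by
  decide +kernel

theorem core {s : Fin 5 → ℤ × ℤ} (ψ : ℤ × ℤ →+ ZMod 5) (j k f g h : Fin 5)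
    (hcov : ∀ i, i = j ∨ i = k ∨ i = f ∨ i = g ∨ i = h)
    (e1 : ψ (s j) = ψ (s k)) (e2 : ψ (s g) + ψ (s h) = 2 * ψ (s f))
    (n1 : ψ (s j) ≠ ψ (s f)) (n2 : ψ (s j) ≠ ψ (s g)) (n3 : ψ (s j) ≠ ψ (s h))
    (n4 : ψ (s g) ≠ ψ (s f))
    (hT : ∀ m n : ℤ, Odd m → m • (s j - s k) ≠ n • (s g + s h - 2 • s f)) : Good5 s := by
  obtain ⟨T, hT⟩ := exT _ _ hT
  refine ⟨fun b => if b then {t | ψ t = 0 ∧ t ∈ T} else
    {t | ψ (t - 2 • s f) = 0 ∧ t - 2 • s f ∉ T}, fun x => ?_⟩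
  have A0 : ψ (s j - s f) ≠ 0 := by rw [map_sub]; exact sub_ne_zero.2 n1
  have B0 : ψ (s g - s f) ≠ 0 := by rw [map_sub]; exact sub_ne_zero.2 n4
  have AB : ψ (s j - s f) ≠ ψ (s g - s f) := by
    rw [map_sub, map_sub]; exact fun hh => n2 (sub_left_injective hh)
  have vh : ψ (s h - s f) = - ψ (s g - s f) := by
    rw [map_sub, map_sub]; linear_combination e2
  have AC : ψ (s j - s f) ≠ - ψ (s g - s f) := by
    rw [← vh, map_sub, map_sub]; exact fun hh => n3 (sub_left_injective hh)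
  have vk : ψ (s k - s f) = ψ (s j - s f) := by rw [map_sub, map_sub, e1]
  have vf : ψ (s f - s f) = 0 := by simp
  have mt : ∀ i, (x - uB (true, i).1 (s (true, i).2) ∈ (if (true, i).1 then {t | ψ t = 0 ∧ t ∈ T} else
      {t | ψ (t - 2 • s f) = 0 ∧ t - 2 • s f ∉ T} : Set (ℤ × ℤ))) ↔
      (ψ (x - s f) = ψ (s i - s f) ∧ x - s i ∈ T) := by
    intro i
    show (ψ (x - s i) = 0 ∧ x - s i ∈ T) ↔ _
    rw [map_sub, map_sub, map_sub, sub_eq_zero, sub_left_inj]
  have mf : ∀ i, (x - uB (false, i).1 (s (false, i).2) ∈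
      (if (false, i).1 then {t | ψ t = 0 ∧ t ∈ T} else
      {t | ψ (t - 2 • s f) = 0 ∧ t - 2 • s f ∉ T} : Set (ℤ × ℤ))) ↔
      (ψ (x - s f) = - ψ (s i - s f) ∧ x + s i - 2 • s f ∉ T) := by
    intro i
    show (ψ (x - - s i - 2 • s f) = 0 ∧ x - - s i - 2 • s f ∉ T) ↔ _
    rw [sub_neg_eq_add]
    have : ψ (x + s i - 2 • s f) = ψ (x - s f) + ψ (s i - s f) := by
      rw [← map_add]; congr 1; abel
    rw [this, add_eq_zero_iff_eq_neg]
  rcases cls _ _ (ψ (x - s f)) A0 B0 AB AC with ⟨c, c1, c2, c3, c4⟩ | ⟨c, c1, c2, c3, c4⟩ |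
    ⟨c, c1, c2, c3, c4⟩ | ⟨c, c1, c2, c3, c4⟩ | ⟨c, c1, c2, c3, c4⟩
  · refine uniq2 (true, j) (true, k) ?_ ?_
    · rw [mt, mt, vk]
      have h1 := (hT (x - s j)).1
      rw [show x - s j + (s j - s k) = x - s k by abel] at h1
      rw [h1]; tauto
    · rintro ⟨b, i⟩ hm
      cases b
      · rw [mf] at hm
        rcases hcov i with rfl | rfl | rfl | rfl | rfl <;>
          (try simp only [vh, vk, vf, neg_neg, neg_zero] at hm) <;> tauto
      · rw [mt] at hm
        rcases hcov i with rfl | rfl | rfl | rfl | rfl <;>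
          (try simp only [vh, vk, vf, neg_neg, neg_zero] at hm) <;> tauto
  · refine uniq2 (false, j) (false, k) ?_ ?_
    · rw [mf, mf, vk]
      have h1 := (hT (x + s k - 2 • s f)).1
      rw [show x + s k - 2 • s f + (s j - s k) = x + s j - 2 • s f by abel] at h1
      rw [h1]; tauto
    · rintro ⟨b, i⟩ hm
      cases b
      · rw [mf] at hm
        rcases hcov i with rfl | rfl | rfl | rfl | rfl <;>
          (try simp only [vh, vk, vf, neg_neg, neg_zero] at hm) <;> tauto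
      · rw [mt] at hm
        rcases hcov i with rfl | rfl | rfl | rfl | rfl <;>
          (try simp only [vh, vk, vf, neg_neg, neg_zero] at hm) <;> tauto
  · refine uniq2 (true, f) (false, f) ?_ ?_
    · rw [mt, mf, vf, neg_zero]
      rw [show x + s f - 2 • s f = x - s f by rw [two_smul]; abel]
      tauto
    · rintro ⟨b, i⟩ hm
      cases b
      · rw [mf] at hm
        rcases hcov i with rfl | rfl | rfl | rfl | rfl <;>
          (try simp only [vh, vk, vf, neg_neg, neg_zero] at hm) <;> tauto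
      · rw [mt] at hm
        rcases hcov i with rfl | rfl | rfl | rfl | rfl <;>
          (try simp only [vh, vk, vf, neg_neg, neg_zero] at hm) <;> tauto
  · refine uniq2 (true, g) (false, h) ?_ ?_
    · rw [mt, mf, vh, neg_neg]
      have h1 := (hT (x - s g)).2
      rw [show x - s g + (s g + s h - 2 • s f) = x + s h - 2 • s f by abel] at h1
      rw [h1]; tauto
    · rintro ⟨b, i⟩ hm
      cases b
      · rw [mf] at hm
        rcases hcov i with rfl | rfl | rfl | rfl | rfl <;>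
          (try simp only [vh, vk, vf, neg_neg, neg_zero] at hm) <;> tauto
      · rw [mt] at hm
        rcases hcov i with rfl | rfl | rfl | rfl | rfl <;>
          (try simp only [vh, vk, vf, neg_neg, neg_zero] at hm) <;> tauto
  · refine uniq2 (true, h) (false, g) ?_ ?_
    · rw [mt, mf, vh]
      have h1 := (hT (x - s h)).2
      rw [show x - s h + (s g + s h - 2 • s f) = x + s g - 2 • s f by abel] at h1
      rw [h1]; tauto
    · rintro ⟨b, i⟩ hm
      cases b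
      · rw [mf] at hm
        rcases hcov i with rfl | rfl | rfl | rfl | rfl <;>
          (try simp only [vh, vk, vf, neg_neg, neg_zero] at hm) <;> tauto
      · rw [mt] at hm
        rcases hcov i with rfl | rfl | rfl | rfl | rfl <;>
          (try simp only [vh, vk, vf, neg_neg, neg_zero] at hm) <;> tauto

end Pool.Agent.TH871.FS
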