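import Pool.Agent.TH871.FS.Base

set_option autoImplicit false

namespace Pool.Agent.TH871.FS

def E (p q : ℤ) : Prop := ∃ (H V : ℤ → Prop) (c : ℤ),
  (∀ r, One (H r) (H (r - p)) (V r) (V (r + p))) ∧
  ∀ r, One (H r) (H (r - q)) (V (c - r)) (V (c - r + q))

theorem E.double {p q : ℤ} (h : E p q) : E (2 * p) (2 * q) := by
  obtain ⟨H, V, c, h1, h2⟩ := h
  refine ⟨fun r => H (r / 2), fun r => V (r / 2), 2 * c + 1, fun r => ?_, fun r => ?_⟩
  · have := h1 (r / 2)
    rw [show r / 2 - p = (r - 2 * p) / 2 by omega, show r / 2 + p = (r + 2 * p) / 2 by omega] at this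
    exact this
  · have := h2 (r / 2)
    rw [show r / 2 - q = (r - 2 * q) / 2 by omega,
      show c - r / 2 = (2 * c + 1 - r) / 2 by omega,
      show (2 * c + 1 - r) / 2 + q = (2 * c + 1 - r + 2 * q) / 2 by omega] at this
    exact this

theorem E_odd {p q : ℤ} (hp : Odd p) (hq : q ≠ 0) : E p q := by
  rcases Int.even_or_odd q with hq2 | hq2
  · refine ⟨fun r => Even r ∧ Even (r / q), fun r => Odd r ∧ ¬ Even ((r - p) / q), 0,
      fun r => ?_, fun r => ?_⟩
    · have e1 : r + p - p = r := by ring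
      simp only [e1]
      generalize r / q = g at *
      generalize (r - p) / q = g' at *
      unfold One
      simp only [Int.even_iff, Int.odd_iff] at *
      omega
    · have e1 : (r - q) / q = r / q - 1 := by
        have := Int.add_mul_ediv_right r (-1) hq
        rw [← sub_eq_add_neg] at this
        rw [← this]; congr 1; ring
      have e2 : (0 - r + q - p) / q = (0 - r - p) / q + 1 := by
        have := Int.add_mul_ediv_right (0 - r - p) 1 hq
        rw [← this]; congr 1; ring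
      simp only [e1, e2]
      generalize r / q = g at *
      generalize (0 - r - p) / q = g' at *
      unfold One
      simp only [Int.even_iff, Int.odd_iff] at *
      clear e1 e2
      omega
  · obtain ⟨k, rfl⟩ := hp
    obtain ⟨l, rfl⟩ := hq2
    refine ⟨fun r => r % 2 = 0, fun _ => False, 0, fun r => ?_, fun r => ?_⟩
    · unfold One
      rcases Int.emod_two_eq_zero_or_one r with h | h
      · left
        refine ⟨h, ?_, not_false, not_false⟩
        show ¬ ((r - (2 * k + 1)) % 2 = 0)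
        omega
      · right; left
        refine ⟨?_, ?_, not_false, not_false⟩
        · show ¬ (r % 2 = 0)
          omega
        · show (r - (2 * k + 1)) % 2 = 0
          omega
    · unfold One
      rcases Int.emod_two_eq_zero_or_one r with h | h
      · left
        refine ⟨h, ?_, not_false, not_false⟩
        show ¬ ((r - (2 * l + 1)) % 2 = 0)
        omega
      · right; left
        refine ⟨?_, ?_, not_false, not_false⟩
        · show ¬ (r % 2 = 0)
          omega
        · show (r - (2 * l + 1)) % 2 = 0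
          omega

theorem E_all (n : ℕ) : ∀ p q : ℤ, p.natAbs ≤ n → p ≠ 0 → q ≠ 0 → E p q ∨ E q p := by
  induction n using Nat.strong_induction_on with
  | _ n ih =>
    intro p q hn hp hq
    rcases Int.even_or_odd' p with ⟨p', rfl | hp'⟩
    · rcases Int.even_or_odd' q with ⟨q', rfl | hq'⟩
      · have h1 : p'.natAbs < n := by omega
        rcases ih _ h1 p' q' le_rfl (by omega) (by omega) with h | h
        · exact Or.inl h.double
        · exact Or.inr h.double
      · exact Or.inr (E_odd ⟨q', hq'⟩ hp)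
    · exact Or.inl (E_odd ⟨p', hp'⟩ hq)

/-- rotation by 90 degrees -/
def rot : ℤ × ℤ →+ ℤ × ℤ where
  toFun x := (-x.2, x.1)
  map_zero' := by simp
  map_add' := by intro x y; ext <;> simp; ring

@[simp] theorem rot_apply (x : ℤ × ℤ) : rot x = (-x.2, x.1) := rfl

/-- the four rotations -/
def u4 : Fin 4 → (ℤ × ℤ →+ ℤ × ℤ)
  | 0 => AddMonoidHom.id _
  | 1 => rot
  | 2 => -AddMonoidHom.id _
  | 3 => -rot

@[simp] theorem u4_0 (x : ℤ × ℤ) : u4 0 x = x := rfl
@[simp] theorem u4_1 (x : ℤ × ℤ) : u4 1 x = (-x.2, x.1) := rfl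
@[simp] theorem u4_2 (x : ℤ × ℤ) : u4 2 x = -x := rfl
@[simp] theorem u4_3 (x : ℤ × ℤ) : u4 3 x = -(-x.2, x.1) := rfl

def mm (F : ℤ → Prop) (A B : ℤ) : Prop := A % 2 = 0 ∧ B % 2 = 0 ∧ F ((A - B) / 2)

theorem mm_yes {F : ℤ → Prop} {A B r : ℤ} (hA : A % 2 = 0) (hB : B % 2 = 0)
    (hr : (A - B) / 2 = r) : mm F A B ↔ F r := by
  unfold mm
  rw [hr]
  exact ⟨fun h => h.2.2, fun h => ⟨hA, hB, h⟩⟩

theorem mm_no {F : ℤ → Prop} {A B : ℤ} (h : A % 2 ≠ 0 ∨ B % 2 ≠ 0) : mm F A B ↔ False := by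
  unfold mm
  constructor
  · rintro ⟨h1, h2, -⟩; rcases h with h | h <;> contradiction
  · exact False.elim

def TD (H V : ℤ → Prop) (c : ℤ) : Fin 4 → Set (ℤ × ℤ)
  | 0 => {t | mm H t.1 t.2}
  | 1 => {t | mm V t.1 t.2}
  | 2 => {t | mm H (2 * c + 1 - t.1) (1 - t.2)}
  | 3 => {t | mm V (2 * c + 1 - t.1) (1 - t.2)}

theorem exu {K : Type} {mem : K → Prop} {a b c d : Prop} (i1 i2 i3 i4 : K)
    (h : ∀ p, mem p ↔ ((p = i1 ∧ a) ∨ (p = i2 ∧ b) ∨ (p = i3 ∧ c) ∨ (p = i4 ∧ d)))
    (o : One a b c d) : ∃! p, mem p := by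
  rcases o with o | o | o | o
  · refine ⟨i1, (h _).2 (Or.inl ⟨rfl, o.1⟩), fun q hq => ?_⟩
    rcases (h q).1 hq with h | h | h | h
    · exact h.1
    · exact absurd h.2 o.2.1
    · exact absurd h.2 o.2.2.1
    · exact absurd h.2 o.2.2.2
  · refine ⟨i2, (h _).2 (Or.inr (Or.inl ⟨rfl, o.2.1⟩)), fun q hq => ?_⟩
    rcases (h q).1 hq with h | h | h | h
    · exact absurd h.2 o.1
    · exact h.1
    · exact absurd h.2 o.2.2.1
    · exact absurd h.2 o.2.2.2
  · refine ⟨i3, (h _).2 (Or.inr (Or.inr (Or.inl ⟨rfl, o.2.2.1⟩))), fun q hq => ?_⟩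
    rcases (h q).1 hq with h | h | h | h
    · exact absurd h.2 o.1
    · exact absurd h.2 o.2.1
    · exact h.1
    · exact absurd h.2 o.2.2.2
  · refine ⟨i4, (h _).2 (Or.inr (Or.inr (Or.inr ⟨rfl, o.2.2.2⟩))), fun q hq => ?_⟩
    rcases (h q).1 hq with h | h | h | h
    · exact absurd h.2 o.1
    · exact absurd h.2 o.2.1
    · exact absurd h.2 o.2.2.1
    · exact h.1

/-- two even and two odd points of a line -/
theorem good_two_two {p q β : ℤ} {s : Fin 4 → ℤ × ℤ} (h0 : s 0 = (0, 0)) (h1 : s 1 = (2 * p, 0))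
    (h2 : s 2 = (2 * β + 1, 0)) (h3 : s 3 = (2 * β + 1 + 2 * q, 0)) (hE : E p q) : Good u4 s := by
  obtain ⟨H, V, c, o1, o2⟩ := hE
  refine ⟨TD H V c, fun x => ?_⟩
  rcases Int.even_or_odd' x.1 with ⟨X, hX | hX⟩ <;> rcases Int.even_or_odd' x.2 with ⟨Y, hY | hY⟩
  · refine exu (0, 0) (0, 1) (1, 0) (1, 1) ?_ (o1 (X - Y))
    rintro ⟨k, j⟩
    fin_cases k <;> fin_cases j <;> simp [TD, h0, h1, h2, h3] <;>
      first
        | (apply mm_yes <;> omega)
        | (refine fun hh => (mm_no ?_).1 hh; omega)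
  · refine exu (2, 2) (2, 3) (1, 2) (1, 3) ?_ (o2 (c - X + Y - β))
    rintro ⟨k, j⟩
    fin_cases k <;> fin_cases j <;> simp [TD, h0, h1, h2, h3] <;>
      first
        | (apply mm_yes <;> omega)
        | (refine fun hh => (mm_no ?_).1 hh; omega)
  · refine exu (0, 2) (0, 3) (3, 2) (3, 3) ?_ (o2 (X - Y - β))
    rintro ⟨k, j⟩
    fin_cases k <;> fin_cases j <;> simp [TD, h0, h1, h2, h3] <;>
      first
        | (apply mm_yes <;> omega)
        | (refine fun hh => (mm_no ?_).1 hh; omega)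
  · refine exu (2, 0) (2, 1) (3, 0) (3, 1) ?_ (o1 (c - X + Y))
    rintro ⟨k, j⟩
    fin_cases k <;> fin_cases j <;> simp [TD, h0, h1, h2, h3] <;>
      first
        | (apply mm_yes <;> omega)
        | (refine fun hh => (mm_no ?_).1 hh; omega)

end Pool.Agent.TH871.FS
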