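import Pool.Agent.TH871.FS.Pat
import Pool.Agent.TH871.FS.Row

set_option autoImplicit false

namespace Pool.Agent.TH871.FS

/-- the three parities -/
def G : Fin 3 → ZMod 2 × ZMod 2 → ZMod 2
  | 0, v => v.1
  | 1, v => v.2
  | 2, v => v.1 + v.2

def par (x : ℤ × ℤ) : ZMod 2 × ZMod 2 := ((x.1 : ZMod 2), (x.2 : ZMod 2))

theorem par_sub (x y : ℤ × ℤ) : par (x - y) = par x - par y := by
  ext <;> simp [par]

theorem G_sub (i : Fin 3) (v w : ZMod 2 × ZMod 2) : G i (v - w) = G i v - G i w := by
  fin_cases i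
  · rfl
  · rfl
  · show (v - w).1 + (v - w).2 = (v.1 + v.2) - (w.1 + w.2)
    simp only [Prod.fst_sub, Prod.snd_sub]; ring

abbrev Z22 := ZMod 2 × ZMod 2

def Inj4 (v0 v1 v2 v3 : Z22) : Prop :=
  v0 ≠ v1 ∧ v0 ≠ v2 ∧ v0 ≠ v3 ∧ v1 ≠ v2 ∧ v1 ≠ v3 ∧ v2 ≠ v3

def Const4 (i : Fin 3) (v0 v1 v2 v3 : Z22) : Prop :=
  G i v1 = G i v0 ∧ G i v2 = G i v0 ∧ G i v3 = G i v0

def Odd4 (i : Fin 3) (v0 v1 v2 v3 : Z22) : Prop :=
  G i v1 ≠ G i v0 ∧ G i v2 ≠ G i v0 ∧ G i v3 ≠ G i v0

instance (v0 v1 v2 v3 : Z22) : Decidable (Inj4 v0 v1 v2 v3) := by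
  unfold Inj4; infer_instance

instance (i : Fin 3) (v0 v1 v2 v3 : Z22) : Decidable (Const4 i v0 v1 v2 v3) := by
  unfold Const4; infer_instance

instance (i : Fin 3) (v0 v1 v2 v3 : Z22) : Decidable (Odd4 i v0 v1 v2 v3) := by
  unfold Odd4; infer_instance

def Res4 (v0 v1 v2 v3 : Z22) : Prop :=
  Inj4 v0 v1 v2 v3 ∨ (∃ i : Fin 3, Const4 i v0 v1 v2 v3) ∨
    (∃ i : Fin 3, Odd4 i v0 v1 v2 v3 ∨ Odd4 i v1 v0 v2 v3 ∨ Odd4 i v2 v0 v1 v3 ∨ Odd4 i v3 v0 v1 v2)

instance (v0 v1 v2 v3 : Z22) : Decidable (Res4 v0 v1 v2 v3) := by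
  unfold Res4; infer_instance

theorem combi : ∀ v0 v1 v2 v3 : Z22, Res4 v0 v1 v2 v3 := by
  decide +kernel

/-- the maps onto the three index-two sublattices -/
def φ : Fin 3 → (ℤ × ℤ →+ ℤ × ℤ)
  | 0 => { toFun := fun y => (2 * y.1, y.2)
           map_zero' := by simp
           map_add' := by intro x y; ext <;> simp; ring }
  | 1 => { toFun := fun y => (y.1, 2 * y.2)
           map_zero' := by simp
           map_add' := by intro x y; ext <;> simp; ring }
  | 2 => { toFun := fun y => (2 * y.1 - y.2, y.2)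
           map_zero' := by simp
           map_add' := by intro x y; ext <;> simp; ring }

@[simp] theorem φ_0 (y : ℤ × ℤ) : φ 0 y = (2 * y.1, y.2) := rfl
@[simp] theorem φ_1 (y : ℤ × ℤ) : φ 1 y = (y.1, 2 * y.2) := rfl
@[simp] theorem φ_2 (y : ℤ × ℤ) : φ 2 y = (2 * y.1 - y.2, y.2) := rfl

theorem φ_inj (i : Fin 3) : Function.Injective (φ i) := by
  intro x y h
  fin_cases i
  · have := congrArg Prod.fst h
    have h2 := congrArg Prod.snd h
    simp at this h2
    ext <;> assumption
  · have := congrArg Prod.fst h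
    have h2 := congrArg Prod.snd h
    simp at this h2
    ext <;> assumption
  · have h' : φ 2 x = φ 2 y := h
    have h3 := congrArg Prod.fst h'
    have h4 := congrArg Prod.snd h'
    have h1 : 2 * x.1 - x.2 = 2 * y.1 - y.2 := h3
    have h2 : x.2 = y.2 := h4
    ext
    · omega
    · exact h2

theorem φ_comm (i : Fin 3) (k : Bool) (x : ℤ × ℤ) : uB k (φ i x) = φ i (uB k x) := by
  cases k
  · simp
  · simp

theorem z2 (a : ℤ) : (a : ZMod 2) = 0 ↔ a % 2 = 0 := by
  rw [ZMod.intCast_zmod_eq_zero_iff_dvd a 2]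
  omega

theorem φ_range (i : Fin 3) (x : ℤ × ℤ) : G i (par x) = 0 ↔ ∃ y, x = φ i y := by
  fin_cases i
  · show ((x.1 : ℤ) : ZMod 2) = 0 ↔ ∃ y, x = φ 0 y
    rw [z2]
    constructor
    · intro h
      refine ⟨(x.1 / 2, x.2), ?_⟩
      ext
      · simp only [φ_0]; omega
      · simp only [φ_0]
    · rintro ⟨y, rfl⟩
      simp only [φ_0]; omega
  · show ((x.2 : ℤ) : ZMod 2) = 0 ↔ ∃ y, x = φ 1 y
    rw [z2]
    constructor
    · intro h
      refine ⟨(x.1, x.2 / 2), ?_⟩
      ext
      · simp only [φ_1]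
      · simp only [φ_1]; omega
    · rintro ⟨y, rfl⟩
      simp only [φ_1]; omega
  · show ((x.1 : ℤ) : ZMod 2) + ((x.2 : ℤ) : ZMod 2) = 0 ↔ ∃ y, x = φ 2 y
    rw [← Int.cast_add, z2]
    constructor
    · intro h
      refine ⟨((x.1 + x.2) / 2, x.2), ?_⟩
      ext
      · simp only [φ_2]; omega
      · simp only [φ_2]
    · rintro ⟨y, rfl⟩
      simp only [φ_2]; omega

theorem zne {a b : ZMod 2} (h : a ≠ b) : a - b = 1 := by
  revert a b; decide

theorem good_inj {s : Fin 4 → ℤ × ℤ} (h : Function.Injective fun j => par (s j)) : Good uB s := by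
  have hb : Function.Bijective fun j => par (s j) := by
    rw [Fintype.bijective_iff_injective_and_card]
    exact ⟨h, by decide⟩
  refine ⟨fun k => if k then {t | par t = 0} else ∅, fun x => ?_⟩
  obtain ⟨j, hj⟩ := hb.2 (par x)
  refine ⟨(true, j), ?_, ?_⟩
  · show par (x - s j) = 0
    rw [par_sub, ← hj]; simp
  · rintro ⟨k, j'⟩ hq
    cases k
    · simp at hq
    · have h1 : par (x - s j') = 0 := by simpa using hq
      rw [par_sub, sub_eq_zero] at h1
      have h2 : j = j' := h (hj.trans h1)
      rw [h2]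

theorem good_31 (i : Fin 3) {s : Fin 4 → ℤ × ℤ} (hs : Function.Injective s) (j0 : Fin 4)
    (h : ∀ j, j ≠ j0 → G i (par (s j)) ≠ G i (par (s j0))) : Good uB s := by
  refine good_perm (Equiv.swap 0 j0) ?_
  set t : Fin 4 → ℤ × ℤ := s ∘ Equiv.swap 0 j0 with ht
  have t0 : t 0 = s j0 := by simp [ht]
  have htj : ∀ j, j ≠ 0 → G i (par (t j)) - G i (par (t 0)) = 1 := by
    intro j hj
    apply zne
    rw [t0]
    apply h
    intro he
    apply hj
    have := congrArg (Equiv.swap 0 j0) he
    simpa using this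
  have tinj : Function.Injective t := hs.comp (Equiv.injective _)
  have r2 : ∃ y, t 2 - t 1 = φ i y := by
    rw [← φ_range, par_sub, G_sub]
    linear_combination htj 2 (by decide) - htj 1 (by decide)
  have r3 : ∃ y, t 3 - t 1 = φ i y := by
    rw [← φ_range, par_sub, G_sub]
    linear_combination htj 3 (by decide) - htj 1 (by decide)
  obtain ⟨a, ha⟩ := r2
  obtain ⟨b, hb⟩ := r3
  have h01 : G i (par (t 0 - t 1)) = 1 := by
    rw [par_sub, G_sub]
    have := htj 1 (by decide)
    have h2 : (1 : ZMod 2) = -1 := by decide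
    rw [h2, ← this]; ring
  refine good_three_one (φ i) (φ_inj i) ha hb ?_ ?_ (P_all _ a b le_rfl ?_ ?_ ?_)
  · intro y hy
    have := (φ_range i (t 0 - t 1)).2 ⟨y, hy⟩
    rw [h01] at this
    exact absurd this (by decide)
  · intro x
    by_cases hx : G i (par x) = 0
    · exact Or.inl ((φ_range i x).1 hx)
    · right
      have : G i (par (x - (t 0 - t 1))) = 0 := by
        rw [par_sub, G_sub, h01]
        have := zne hx
        rw [sub_zero] at this
        rw [this]; decide
      obtain ⟨y, hy⟩ := (φ_range i _).1 this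
      exact ⟨y, by rw [← hy]; abel⟩
  · rintro rfl
    rw [map_zero, sub_eq_zero] at ha
    exact absurd (tinj ha) (by decide)
  · rintro rfl
    rw [map_zero, sub_eq_zero] at hb
    exact absurd (tinj hb) (by decide)
  · rintro rfl
    rw [← hb] at ha
    exact absurd (tinj (sub_left_injective ha)) (by decide)

def det (a b : ℤ × ℤ) : ℤ := a.1 * b.2 - a.2 * b.1

theorem det_φ (i : Fin 3) (a b : ℤ × ℤ) : det (φ i a) (φ i b) = 2 * det a b := by
  fin_cases i
  · simp [det]; ring
  · simp [det]; ring
  · simp [det]; ring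

theorem good_rank2 (n : ℕ) : ∀ s : Fin 4 → ℤ × ℤ, Function.Injective s →
    (∃ j k l, det (s j - s l) (s k - s l) ≠ 0 ∧ (det (s j - s l) (s k - s l)).natAbs = n) →
    Good uB s := by
  induction n using Nat.strong_induction_on with
  | _ n ih =>
    rintro s hs ⟨j, k, l, hd, hn⟩
    rcases combi (par (s 0)) (par (s 1)) (par (s 2)) (par (s 3)) with h | ⟨i, h⟩ | ⟨i, h⟩
    · apply good_inj
      obtain ⟨h1, h2, h3, h4, h5, h6⟩ := h
      intro a b hab
      fin_cases a <;> fin_cases b <;>
        first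
          | rfl
          | exact absurd hab h1
          | exact absurd hab h2
          | exact absurd hab h3
          | exact absurd hab h4
          | exact absurd hab h5
          | exact absurd hab h6
          | exact absurd hab.symm h1
          | exact absurd hab.symm h2
          | exact absurd hab.symm h3
          | exact absurd hab.symm h4
          | exact absurd hab.symm h5
          | exact absurd hab.symm h6
    · have hc : ∀ j, ∃ y, s j - s 0 = φ i y := by
        intro j
        rw [← φ_range, par_sub, G_sub, sub_eq_zero]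
        fin_cases j
        · rfl
        · exact h.1
        · exact h.2.1
        · exact h.2.2
      choose s' hs' using hc
      have hdiff : ∀ a b, s a - s b = φ i (s' a - s' b) := by
        intro a b
        rw [map_sub, ← hs', ← hs']; abel
      rw [hdiff, hdiff, det_φ] at hd hn
      refine red uB (φ i) (φ_inj i) (φ_comm i) (s' := s') (s 0) (fun j => by rw [← hs']; abel) ?_
      refine ih (det (s' j - s' l) (s' k - s' l)).natAbs ?_ s' ?_ ⟨j, k, l, ?_, rfl⟩
      · omega
      · intro a b hab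
        have := hdiff a b
        rw [hab, sub_self, map_zero, sub_eq_zero] at this
        exact hs this
      · intro h0; apply hd; rw [h0]; ring
    · rcases h with h | h | h | h
      · refine good_31 i hs 0 fun j hj => ?_
        fin_cases j
        · exact absurd rfl hj
        · exact h.1
        · exact h.2.1
        · exact h.2.2
      · refine good_31 i hs 1 fun j hj => ?_
        fin_cases j
        · exact h.1
        · exact absurd rfl hj
        · exact h.2.1
        · exact h.2.2
      · refine good_31 i hs 2 fun j hj => ?_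
        fin_cases j
        · exact h.1
        · exact h.2.1
        · exact absurd rfl hj
        · exact h.2.2
      · refine good_31 i hs 3 fun j hj => ?_
        fin_cases j
        · exact h.1
        · exact h.2.1
        · exact h.2.2
        · exact absurd rfl hj

end Pool.Agent.TH871.FS
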