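import Pool.Agent.TH871.FS.Base

set_option autoImplicit false

namespace Pool.Agent.TH871.FS

/-- copies of `S` and of `-S` -/
def uB : Bool → (ℤ × ℤ →+ ℤ × ℤ)
  | true => AddMonoidHom.id _
  | false => -AddMonoidHom.id _

@[simp] theorem uB_true (x : ℤ × ℤ) : uB true x = x := rfl
@[simp] theorem uB_false (x : ℤ × ℤ) : uB false x = -x := rfl

/-- three points of one parity, the fourth of the other one -/
theorem good_three_one (φ : ℤ × ℤ →+ ℤ × ℤ) (hφ : Function.Injective φ) {s : Fin 4 → ℤ × ℤ}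
    {a b : ℤ × ℤ} (h2 : s 2 - s 1 = φ a) (h3 : s 3 - s 1 = φ b)
    (h0 : ∀ y, s 0 - s 1 ≠ φ y)
    (hidx : ∀ x, (∃ y, x = φ y) ∨ ∃ y, x = s 0 - s 1 + φ y) (hP : P a b) : Good uB s := by
  obtain ⟨T, d, hT⟩ := hP
  -- `w - x ∈ T₊` iff ...
  refine ⟨fun k => if k then {t | ∃ y ∈ T, t = φ y - s 1} else
    {t | ∃ y ∈ T, φ d + s 0 - s 1 - t = φ y - s 1}, fun x => ?_⟩
  have hno : ∀ y z, s 0 - s 1 + φ y ≠ φ z := by
    intro y z h
    apply h0 (z - y)
    rw [map_sub, ← h]; abel
  have e1 : s 1 - s 1 = φ 0 := by simp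
  have ea : ∀ j : Fin 4, j ≠ 0 → ∃ v, s j - s 1 = φ v ∧ ((j = 1 ∧ v = 0) ∨ (j = 2 ∧ v = a) ∨
      (j = 3 ∧ v = b)) := by
    intro j hj
    fin_cases j
    · exact absurd rfl hj
    · exact ⟨0, by simpa using e1, Or.inl ⟨rfl, rfl⟩⟩
    · exact ⟨a, h2, Or.inr (Or.inl ⟨rfl, rfl⟩)⟩
    · exact ⟨b, h3, Or.inr (Or.inr ⟨rfl, rfl⟩)⟩
  rcases hidx x with ⟨x', hx'⟩ | ⟨x', hx'⟩
  · -- x = φ x'
    have m0 : ¬ (x - s 0 ∈ {t | ∃ y ∈ T, t = φ y - s 1}) := by
      rintro ⟨y, -, hy⟩
      apply h0 (x' - y)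
      rw [map_sub, ← hx']
      have : φ y = x - s 0 + s 1 := by rw [hy]; abel
      rw [this]; abel
    have mj : ∀ j v, s j - s 1 = φ v → ((x - s j ∈ {t | ∃ y ∈ T, t = φ y - s 1}) ↔ x' - v ∈ T) := by
      intro j v hv
      constructor
      · rintro ⟨y, hy, he⟩
        have : φ y = φ (x' - v) := by
          rw [map_sub, ← hv, ← hx']
          have : φ y = x - s j + s 1 := by rw [he]; abel
          rw [this]; abel
        rw [← hφ this]; exact hy
      · intro h
        refine ⟨_, h, ?_⟩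
        rw [map_sub, ← hv, ← hx']; abel
    have n0 : (x - -s 0 ∈ {t | ∃ y ∈ T, φ d + s 0 - s 1 - t = φ y - s 1}) ↔ d - x' ∈ T := by
      constructor
      · rintro ⟨y, hy, he⟩
        have : φ y = φ (d - x') := by
          rw [map_sub, ← hx']
          have : φ y = φ d + s 0 - s 1 - (x - -s 0) + s 1 := by rw [he]; abel
          rw [this]; abel
        rw [← hφ this]; exact hy
      · intro h
        refine ⟨_, h, ?_⟩
        rw [map_sub, ← hx']; abel
    have nj : ∀ j v, s j - s 1 = φ v →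
        ¬ (x - -s j ∈ {t | ∃ y ∈ T, φ d + s 0 - s 1 - t = φ y - s 1}) := by
      rintro j v hv ⟨y, -, he⟩
      apply hno (d - x' - v) y
      rw [map_sub, map_sub, ← hv, ← hx']
      have : φ y = φ d + s 0 - s 1 - (x - -s j) + s 1 := by rw [he]; abel
      rw [this]; abel
    have o := hT x'
    have t1 := mj 1 0 e1
    have t2 := mj 2 a h2
    have t3 := mj 3 b h3
    rw [sub_zero] at t1
    have f1 := nj 1 0 e1
    have f2 := nj 2 a h2
    have f3 := nj 3 b h3
    have main : ∀ p : Bool × Fin 4, (x - uB p.1 (s p.2) ∈ (if p.1 then {t | ∃ y ∈ T, t = φ y - s 1}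
        else {t | ∃ y ∈ T, φ d + s 0 - s 1 - t = φ y - s 1} : Set (ℤ × ℤ))) ↔
        ((p = (true, 1) ∧ x' ∈ T) ∨ (p = (true, 2) ∧ x' - a ∈ T) ∨ (p = (true, 3) ∧ x' - b ∈ T) ∨
          (p = (false, 0) ∧ d - x' ∈ T)) := by
      rintro ⟨k, j⟩
      cases k <;> fin_cases j
      · simpa using n0
      · simpa using f1
      · simpa using f2
      · simpa using f3
      · simpa using m0
      · simpa using t1
      · simpa using t2
      · simpa using t3
    rcases o with o | o | o | o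
    · refine ⟨(true, 1), (main _).2 (Or.inl ⟨rfl, o.1⟩), fun q hq => ?_⟩
      rcases (main q).1 hq with h | h | h | h
      · exact h.1
      · exact absurd h.2 o.2.1
      · exact absurd h.2 o.2.2.1
      · exact absurd h.2 o.2.2.2
    · refine ⟨(true, 2), (main _).2 (Or.inr (Or.inl ⟨rfl, o.2.1⟩)), fun q hq => ?_⟩
      rcases (main q).1 hq with h | h | h | h
      · exact absurd h.2 o.1
      · exact h.1
      · exact absurd h.2 o.2.2.1
      · exact absurd h.2 o.2.2.2
    · refine ⟨(true, 3), (main _).2 (Or.inr (Or.inr (Or.inl ⟨rfl, o.2.2.1⟩))), fun q hq => ?_⟩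
      rcases (main q).1 hq with h | h | h | h
      · exact absurd h.2 o.1
      · exact absurd h.2 o.2.1
      · exact h.1
      · exact absurd h.2 o.2.2.2
    · refine ⟨(false, 0), (main _).2 (Or.inr (Or.inr (Or.inr ⟨rfl, o.2.2.2⟩))), fun q hq => ?_⟩
      rcases (main q).1 hq with h | h | h | h
      · exact absurd h.2 o.1
      · exact absurd h.2 o.2.1
      · exact absurd h.2 o.2.2.1
      · exact h.1
  · -- x = s 0 - s 1 + φ x'
    have m0 : (x - s 0 ∈ {t | ∃ y ∈ T, t = φ y - s 1}) ↔ x' ∈ T := by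
      constructor
      · rintro ⟨y, hy, he⟩
        have : φ y = φ x' := by
          have h4 : φ y = x - s 0 + s 1 := by rw [he]; abel
          rw [h4, hx']; abel
        rw [← hφ this]; exact hy
      · intro h
        refine ⟨_, h, ?_⟩
        rw [hx']; abel
    have mj : ∀ j v, s j - s 1 = φ v → ¬ (x - s j ∈ {t | ∃ y ∈ T, t = φ y - s 1}) := by
      rintro j v hv ⟨y, -, he⟩
      apply hno (x' - v) y
      rw [map_sub, ← hv]
      have h4 : φ y = x - s j + s 1 := by rw [he]; abel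
      rw [h4, hx']; abel
    have n0 : ¬ (x - -s 0 ∈ {t | ∃ y ∈ T, φ d + s 0 - s 1 - t = φ y - s 1}) := by
      rintro ⟨y, -, he⟩
      apply hno (y + x' - d) 0
      rw [map_sub, map_add, map_zero]
      have h4 : φ y = φ d + s 0 - s 1 - (x - -s 0) + s 1 := by rw [he]; abel
      rw [h4, hx']; abel
    have nj : ∀ j v, s j - s 1 = φ v →
        ((x - -s j ∈ {t | ∃ y ∈ T, φ d + s 0 - s 1 - t = φ y - s 1}) ↔ d - x' - v ∈ T) := by
      intro j v hv
      constructor
      · rintro ⟨y, hy, he⟩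
        have : φ y = φ (d - x' - v) := by
          rw [map_sub, map_sub, ← hv]
          have h4 : φ y = φ d + s 0 - s 1 - (x - -s j) + s 1 := by rw [he]; abel
          rw [h4, hx']; abel
        rw [← hφ this]; exact hy
      · intro h
        refine ⟨_, h, ?_⟩
        rw [map_sub, map_sub, ← hv, hx']; abel
    have o := hT (d - x')
    rw [sub_sub_cancel] at o
    have t1 := nj 1 0 e1
    have t2 := nj 2 a h2
    have t3 := nj 3 b h3
    rw [sub_zero] at t1
    have f1 := mj 1 0 e1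
    have f2 := mj 2 a h2
    have f3 := mj 3 b h3
    have main : ∀ p : Bool × Fin 4, (x - uB p.1 (s p.2) ∈ (if p.1 then {t | ∃ y ∈ T, t = φ y - s 1}
        else {t | ∃ y ∈ T, φ d + s 0 - s 1 - t = φ y - s 1} : Set (ℤ × ℤ))) ↔
        ((p = (false, 1) ∧ d - x' ∈ T) ∨ (p = (false, 2) ∧ d - x' - a ∈ T) ∨
          (p = (false, 3) ∧ d - x' - b ∈ T) ∨ (p = (true, 0) ∧ x' ∈ T)) := by
      rintro ⟨k, j⟩
      cases k <;> fin_cases j
      · simpa using n0
      · simpa using t1
      · simpa using t2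
      · simpa using t3
      · simpa using m0
      · simpa using f1
      · simpa using f2
      · simpa using f3
    rcases o with o | o | o | o
    · refine ⟨(false, 1), (main _).2 (Or.inl ⟨rfl, o.1⟩), fun q hq => ?_⟩
      rcases (main q).1 hq with h | h | h | h
      · exact h.1
      · exact absurd h.2 o.2.1
      · exact absurd h.2 o.2.2.1
      · exact absurd h.2 o.2.2.2
    · refine ⟨(false, 2), (main _).2 (Or.inr (Or.inl ⟨rfl, o.2.1⟩)), fun q hq => ?_⟩
      rcases (main q).1 hq with h | h | h | h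
      · exact absurd h.2 o.1
      · exact h.1
      · exact absurd h.2 o.2.2.1
      · exact absurd h.2 o.2.2.2
    · refine ⟨(false, 3), (main _).2 (Or.inr (Or.inr (Or.inl ⟨rfl, o.2.2.1⟩))), fun q hq => ?_⟩
      rcases (main q).1 hq with h | h | h | h
      · exact absurd h.2 o.1
      · exact absurd h.2 o.2.1
      · exact h.1
      · exact absurd h.2 o.2.2.2
    · refine ⟨(true, 0), (main _).2 (Or.inr (Or.inr (Or.inr ⟨rfl, o.2.2.2⟩))), fun q hq => ?_⟩
      rcases (main q).1 hq with h | h | h | h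
      · exact absurd h.2 o.1
      · exact absurd h.2 o.2.1
      · exact absurd h.2 o.2.2.1
      · exact h.1

end Pool.Agent.TH871.FS
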